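import Pool.Agent.Helper5.GB.St

/-!
# Project GB, module Sep: a component of the frontier joins the left side of a rectangle to the right side
-/

set_option autoImplicit false

open Set Filter Topology

namespace Pool.Agent.Helper16.GB

open Pool.Agent.Helper5.GB

/-- In a compact Hausdorff space a closed set whose components miss a closed set is separated from
it by a clopen set. -/
theorem exists_clopen_sep {X : Type} [TopologicalSpace X] [T2Space X] [CompactSpace X]
    {L Q : Set X} (hL : IsClosed L) (hQ : IsClosed Q)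
    (h : ∀ x ∈ L, ∀ y ∈ connectedComponent x, y ∉ Q) :
    ∃ U : Set X, IsClopen U ∧ L ⊆ U ∧ ∀ y ∈ U, y ∉ Q := by
  have h1 : ∀ x ∈ L, ∃ U : Set X, IsClopen U ∧ x ∈ U ∧ ∀ y ∈ U, y ∉ Q := by
    intro x hx
    have h2 : Q ∩ ⋂ s : { s : Set X // IsClopen s ∧ x ∈ s }, (s : Set X) = ∅ := by
      rw [← connectedComponent_eq_iInter_isClopen x]
      rw [Set.eq_empty_iff_forall_notMem]
      rintro y ⟨hy1, hy2⟩
      exact h x hx y hy2 hy1
    obtain ⟨u, hu⟩ := hQ.isCompact.elim_finite_subfamily_closed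
      (fun s : { s : Set X // IsClopen s ∧ x ∈ s } => (s : Set X)) (fun s => s.2.1.1) h2
    refine ⟨⋂ i ∈ u, (i : Set X), isClopen_biInter_finset fun s _ => s.2.1,
      mem_iInter₂.2 fun s _ => s.2.2, ?_⟩
    intro y hy hyQ
    have : y ∈ Q ∩ ⋂ i ∈ u, (i : Set X) := ⟨hyQ, hy⟩
    rw [hu] at this
    exact this
  choose! V hV1 hV2 hV3 using h1
  obtain ⟨t, ht1, ht2⟩ := hL.isCompact.elim_nhds_subcover V
    (fun x hx => (hV1 x hx).isOpen.mem_nhds (hV2 x hx))
  refine ⟨⋃ x ∈ t, V x, ?_, ht2, ?_⟩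
  · exact isClopen_biUnion_finset fun x hx => hV1 x (ht1 x hx)
  · intro y hy
    obtain ⟨x, hx, hyx⟩ := mem_iUnion₂.1 hy
    exact hV3 x (ht1 x hx) y hyx

theorem hSep (h1 : StMir) : StSep := by
  intro E p q r s hpq hrs htop hbot
  classical
  set R : Set (ℝ × ℝ) := Icc p q ×ˢ Icc r s with hR
  set K : Set (ℝ × ℝ) := frontier E ∩ R with hK
  have hKc : IsCompact K := (isCompact_Icc.prod isCompact_Icc).inter_left isClosed_frontier
  have : CompactSpace K := isCompact_iff_compactSpace.1 hKc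
  by_contra hcon
  -- the two sides of `K`
  have hLcl : IsClosed {x : K | x.1.1 = p} :=
    isClosed_eq (continuous_fst.comp continuous_subtype_val) continuous_const
  have hQcl : IsClosed {x : K | x.1.1 = q} :=
    isClosed_eq (continuous_fst.comp continuous_subtype_val) continuous_const
  obtain ⟨U, hU, hLU, hUQ⟩ := exists_clopen_sep hLcl hQcl (by
    intro x hx y hy hyq
    apply hcon
    refine ⟨Subtype.val '' (connectedComponent x), ?_, ?_, ?_, ⟨x, ⟨x, mem_connectedComponent, rfl⟩, hx⟩,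
      ⟨y, ⟨y, hy, rfl⟩, hyq⟩⟩
    · rintro z ⟨w, _, rfl⟩
      exact w.2
    · exact (isClosed_connectedComponent.isCompact).image continuous_subtype_val
    · exact isPreconnected_connectedComponent.image _ continuous_subtype_val.continuousOn)
  set A : Set (ℝ × ℝ) := Subtype.val '' U ∪ ({p} ×ˢ Icc r s) with hA
  set B : Set (ℝ × ℝ) := Subtype.val '' Uᶜ ∪ ({q} ×ˢ Icc r s) with hB
  have hAc : IsCompact A :=
    (hU.1.isCompact.image continuous_subtype_val).union (isCompact_singleton.prod isCompact_Icc)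
  have hBc : IsCompact B :=
    (hU.compl.1.isCompact.image continuous_subtype_val).union (isCompact_singleton.prod isCompact_Icc)
  have hAn : A.Nonempty := ⟨(p, r), Or.inr ⟨rfl, left_mem_Icc.2 hrs.le⟩⟩
  have hBn : B.Nonempty := ⟨(q, r), Or.inr ⟨rfl, left_mem_Icc.2 hrs.le⟩⟩
  have hAB : ∀ z, z ∈ A → z ∈ B → False := by
    rintro z (⟨x, hx, rfl⟩ | ⟨hz1, hz2⟩) (⟨y, hy, hyz⟩ | ⟨hz3, hz4⟩)
    · exact hy (by rw [Subtype.ext hyz]; exact hx)
    · exact hUQ x hx hz3
    · exact hy (hLU (show y.1.1 = p by rw [hyz]; exact hz1))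
    · have : p = q := by rw [← show z.1 = p from hz1]; exact hz3
      exact hpq.ne this
  have hcE : (closure E).Nonempty := ⟨_, htop p (left_mem_Icc.2 hpq.le)⟩
  have hcE' : (closure Eᶜ).Nonempty := ⟨_, hbot p (left_mem_Icc.2 hpq.le)⟩
  obtain ⟨z, hzR, hfz, hgz⟩ := h1 p q r s
    (fun z => Metric.infDist z A - Metric.infDist z B)
    (fun z => Metric.infDist z (closure Eᶜ) - Metric.infDist z (closure E)) hpq hrs
    ((Metric.continuous_infDist_pt A).sub (Metric.continuous_infDist_pt B)).continuousOn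
    ((Metric.continuous_infDist_pt _).sub (Metric.continuous_infDist_pt _)).continuousOn
    (by
      intro y hy
      have e1 : Metric.infDist ((p, y) : ℝ × ℝ) A = 0 :=
        Metric.infDist_zero_of_mem (Or.inr ⟨rfl, hy⟩)
      have e2 : Metric.infDist ((q, y) : ℝ × ℝ) B = 0 :=
        Metric.infDist_zero_of_mem (Or.inr ⟨rfl, hy⟩)
      have e3 : 0 ≤ Metric.infDist ((p, y) : ℝ × ℝ) B := Metric.infDist_nonneg
      have e4 : 0 ≤ Metric.infDist ((q, y) : ℝ × ℝ) A := Metric.infDist_nonneg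
      constructor <;> simp only [e1, e2] <;> linarith)
    (by
      intro x hx
      have e1 : Metric.infDist ((x, r) : ℝ × ℝ) (closure Eᶜ) = 0 :=
        Metric.infDist_zero_of_mem (hbot x hx)
      have e2 : Metric.infDist ((x, s) : ℝ × ℝ) (closure E) = 0 :=
        Metric.infDist_zero_of_mem (htop x hx)
      have e3 : 0 ≤ Metric.infDist ((x, r) : ℝ × ℝ) (closure E) := Metric.infDist_nonneg
      have e4 : 0 ≤ Metric.infDist ((x, s) : ℝ × ℝ) (closure Eᶜ) := Metric.infDist_nonneg
      constructor <;> simp only [e1, e2] <;> linarith)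
  have hboth : Metric.infDist z (closure Eᶜ) = 0 ∧ Metric.infDist z (closure E) = 0 := by
    by_cases hz : z ∈ E
    · have e : Metric.infDist z (closure E) = 0 := Metric.infDist_zero_of_mem (subset_closure hz)
      exact ⟨by linarith, e⟩
    · have e : Metric.infDist z (closure Eᶜ) = 0 := Metric.infDist_zero_of_mem (subset_closure hz)
      exact ⟨e, by linarith⟩
  have hzF : z ∈ frontier E := by
    rw [frontier_eq_closure_inter_closure]
    exact ⟨(isClosed_closure.mem_iff_infDist_zero hcE).2 hboth.2,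
      (isClosed_closure.mem_iff_infDist_zero hcE').2 hboth.1⟩
  have hzK : z ∈ K := ⟨hzF, hzR⟩
  by_cases hzU : (⟨z, hzK⟩ : K) ∈ U
  · have hzA : z ∈ A := Or.inl ⟨⟨z, hzK⟩, hzU, rfl⟩
    have e : Metric.infDist z A = 0 := Metric.infDist_zero_of_mem hzA
    have e' : Metric.infDist z B = 0 := by linarith
    exact hAB z hzA ((hBc.isClosed.mem_iff_infDist_zero hBn).2 e')
  · have hzB : z ∈ B := Or.inl ⟨⟨z, hzK⟩, hzU, rfl⟩
    have e : Metric.infDist z B = 0 := Metric.infDist_zero_of_mem hzB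
    have e' : Metric.infDist z A = 0 := by linarith
    exact hAB z ((hAc.isClosed.mem_iff_infDist_zero hAn).2 e') hzB

end Pool.Agent.Helper16.GB
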